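import Mathlib
import Pool.Agent.V5helper2.NR.Stm2

/-! # Project NR, job PM2: doubled frequencies -/

set_option autoImplicit false
open Finset Filter Topology MeasureTheory AddCircle
open scoped ComplexConjugate

namespace Pool.Agent.V5helper18.NR

open Pool.Agent.V5helper2.NR Pool.Agent.Helper498.NCR Pool.Agent.V5helper2.CF

/-- There are countably many halves. -/
theorem dbl_count (s : Ci) : {t : Ci | t + t = s}.Countable := by
  by_cases h : ∃ t0 : Ci, t0 + t0 = s
  · obtain ⟨t0, h0⟩ := h
    refine (Set.countable_range (fun n : ℤ => t0 + (((n : ℝ) / 2 : ℝ) : Ci))).mono ?_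
    intro t ht
    have ht' : t + t = s := ht
    obtain ⟨x, hx⟩ := QuotientAddGroup.mk_surjective (t - t0)
    have hx' : ((x : ℝ) : Ci) = t - t0 := hx
    have h1 : ((x + x : ℝ) : Ci) = 0 := by
      have e : ((x + x : ℝ) : Ci) = ((x : ℝ) : Ci) + ((x : ℝ) : Ci) := AddCircle.coe_add _ _ _
      rw [e, hx']
      have e2 : t - t0 + (t - t0) = (t + t) - (t0 + t0) := by abel
      rw [e2, ht', h0, sub_self]
    obtain ⟨n, hn⟩ := (AddCircle.coe_eq_zero_iff (1 : ℝ)).1 h1
    refine ⟨n, ?_⟩
    have h2 : (n : ℝ) / 2 = x := by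
      rw [zsmul_eq_mul, mul_one] at hn
      linarith
    show t0 + (((n : ℝ) / 2 : ℝ) : Ci) = t
    rw [h2, hx']
    abel
  · have : {t : Ci | t + t = s} = ∅ := by
      ext t
      simp only [Set.mem_ofPred_eq, Set.mem_empty_iff_false, iff_false]
      exact fun ht => h ⟨t, ht⟩
    rw [this]
    exact Set.countable_empty

theorem f_dbl (k : ℤ) (t : Ci) : (fourier k (t + t) : ℂ) = fourier (2 * k) t := by
  rw [fourier_apply, fourier_apply]
  congr 2
  rw [smul_add, two_mul, add_smul]

theorem f_ng (k : ℤ) (t : Ci) : (fourier k (-t) : ℂ) = fourier (-k) t := by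
  rw [fourier_apply, fourier_apply]
  congr 2
  rw [smul_neg, neg_smul]

theorem meas_f (k : ℤ) (μ : Measure Ci) : AEStronglyMeasurable (fun t : Ci => (fourier k t : ℂ)) μ :=
  (map_continuous (fourier k)).aestronglyMeasurable

theorem gam_dbl (γ : ℕ → ℂ) (n m : ℕ) : Gam (fun k => γ (2 * k)) n m = Gam γ (2 * n) (2 * m) := by
  unfold Gam
  by_cases h : m ≤ n
  · rw [if_pos h, if_pos (by omega)]
    have e : 2 * (n - m) = 2 * n - 2 * m := by omega
    show γ (2 * (n - m)) = γ (2 * n - 2 * m)
    rw [e]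
  · rw [if_neg h, if_neg (by omega)]
    have e : 2 * (m - n) = 2 * m - 2 * n := by omega
    show conj (γ (2 * (m - n))) = conj (γ (2 * m - 2 * n))
    rw [e]

/-- The first value is real. -/
theorem real0 {σ : Measure Ci} [IsFiniteMeasure σ] {δ : ℕ → ℂ} (h : Rep σ δ) : conj (δ 0) = δ 0 := by
  have h1 := h 0 0
  have h2 : Gam δ 0 0 = δ 0 := by
    unfold Gam
    simp
  rw [h2] at h1
  have h3 : ∫ t, (fourier ((0 : ℕ) - (0 : ℕ) : ℤ) t : ℂ) ∂σ = ((σ.real Set.univ : ℝ) : ℂ) := by
    have h4 : ∀ t : Ci, (fourier (((0 : ℕ) : ℤ) - ((0 : ℕ) : ℤ)) t : ℂ) = 1 := by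
      intro t
      rw [sub_self, fourier_zero]
    simp only [h4]
    rw [integral_const]
    simp
  have h5 : conj (δ 0) = ((σ.real Set.univ : ℝ) : ℂ) := h1.trans h3
  have h6 : δ 0 = ((σ.real Set.univ : ℝ) : ℂ) := by
    have := congrArg conj h5
    rwa [Complex.conj_conj, Complex.conj_ofReal] at this
  rw [h5, h6]

theorem gam_conj {δ : ℕ → ℂ} (h0 : conj (δ 0) = δ 0) (n m : ℕ) :
    conj (Gam δ n m) = Gam δ m n := by
  unfold Gam
  rcases lt_trichotomy n m with h | h | h
  · rw [if_neg (by omega), if_pos (by omega), Complex.conj_conj]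
  · subst h
    rw [if_pos le_rfl, Nat.sub_self, h0]
  · rw [if_pos (by omega), if_neg (by omega)]

theorem gam_cj {δ : ℕ → ℂ} (h0 : conj (δ 0) = δ 0) (n m : ℕ) :
    Gam (fun k => conj (δ k)) n m = Gam δ m n := by
  unfold Gam
  rcases lt_trichotomy n m with h | h | h
  · rw [if_neg (by omega), if_pos (by omega), Complex.conj_conj]
  · subst h
    rw [if_pos le_rfl, if_pos le_rfl, Nat.sub_self]
    exact h0
  · rw [if_pos (by omega), if_neg (by omega)]

theorem t_PM2 (h : S_PMS) : S_PM2 := by
  intro ρ σ hρ hσ γ δ hγ hδ hz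
  have h0 := real0 hδ
  have m1 : Measurable (fun t : Ci => t + t) := measurable_id.add measurable_id
  have m2 : Measurable (fun t : Ci => -t) := measurable_id.neg
  have r1 : Rep (ρ.map fun t => t + t) (fun k => γ (2 * k)) := by
    intro n m
    rw [gam_dbl, hγ (2 * n) (2 * m), integral_map m1.aemeasurable (meas_f _ _)]
    congr 1
    funext t
    rw [f_dbl]
    congr 2
    push_cast
    ring
  have r2 : Rep (σ.map fun t => -t) (fun k => conj (δ k)) := by
    intro n m
    rw [gam_cj h0, hδ m n, integral_map m2.aemeasurable (meas_f _ _)]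
    congr 1
    funext t
    rw [f_ng]
    congr 2
    ring
  have hz' : ∀ s, (ρ.map fun t => t + t) {s} = 0 ∨ (σ.map fun t => -t) {s} = 0 := by
    intro s
    rw [Measure.map_apply m1 (measurableSet_singleton s),
      Measure.map_apply m2 (measurableSet_singleton s)]
    by_cases hs : σ {-s} = 0
    · right
      have : (fun t : Ci => -t) ⁻¹' {s} = {-s} := by
        ext t
        simp only [Set.mem_preimage, Set.mem_singleton_iff]
        exact neg_eq_iff_eq_neg
      rw [this]
      exact hs
    · left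
      have hc := dbl_count s
      have e : (fun t : Ci => t + t) ⁻¹' {s} = ⋃ t ∈ {t : Ci | t + t = s}, {t} := by
        ext t
        simp
      rw [e, measure_biUnion_null_iff hc]
      intro t ht
      have ht' : t + t = s := ht
      rcases hz t with h1 | h1
      · exact h1
      · rw [ht'] at h1
        exact absurd h1 hs
  have key := h (ρ.map fun t => t + t) (σ.map fun t => -t) inferInstance inferInstance
    (fun k => γ (2 * k)) (fun k => conj (δ k)) r1 r2 hz'
  refine key.congr fun H => ?_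
  congr 1
  refine Finset.sum_congr rfl fun a _ => Finset.sum_congr rfl fun b _ => ?_
  rw [gam_dbl, gam_cj h0, gam_conj h0]

end Pool.Agent.V5helper18.NR
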